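import Mathlib

set_option autoImplicit false
set_option linter.unusedSectionVars false
set_option linter.unusedVariables false

namespace Pool.Agent.Results.MP_d05de0_co.Multiplexer

open MvPolynomial

/-- `Q` is a product of polynomials each of (total) degree at most `d`, that is, `Q` has
degree-`d` rank at most `1`. -/
def IsProd {p n : ℕ} (d : ℕ) (Q : MvPolynomial (Fin n) (ZMod p)) : Prop :=
  ∃ l : List (MvPolynomial (Fin n) (ZMod p)), (∀ f ∈ l, f.totalDegree ≤ d) ∧ l.prod = Q

/-- `P` is a sum of `k` polynomials of degree-`d` rank at most `1`, each of degree at most `deg P`. -/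
def RankLe {p n : ℕ} (d k : ℕ) (P : MvPolynomial (Fin n) (ZMod p)) : Prop :=
  ∃ Q : Fin k → MvPolynomial (Fin n) (ZMod p),
    (∀ i, IsProd d (Q i) ∧ (Q i).totalDegree ≤ P.totalDegree) ∧ P = ∑ i, Q i

/-- the degree-`d` rank of `P`: the least `k` with `RankLe d k P`. -/
noncomputable def rk {p n : ℕ} (d : ℕ) (P : MvPolynomial (Fin n) (ZMod p)) : ℕ∞ :=
  ⨅ (k : ℕ) (_ : RankLe d k P), (k : ℕ∞)

/-- the degree-`d` rank of `P` relative to `S`. -/
noncomputable def rkS {p n : ℕ} (d : ℕ) (S : Set (ZMod p)) (P : MvPolynomial (Fin n) (ZMod p)) : ℕ∞ :=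
  ⨅ (P₀ : MvPolynomial (Fin n) (ZMod p))
    (_ : P₀.totalDegree ≤ P.totalDegree ∧ ∀ x : Fin n → ZMod p, (∀ i, x i ∈ S) → eval x P₀ = 0),
    rk d (P - P₀)

/-- the degree-`d` rank of `P` relative to `S`, up to constants. -/
noncomputable def rkSbar {p n : ℕ} (d : ℕ) (S : Set (ZMod p)) (P : MvPolynomial (Fin n) (ZMod p)) : ℕ∞ :=
  ⨅ c : ZMod p, rkS d S (P - C c)

section General

variable {p n : ℕ} [Fact p.Prime]

/-- a product of affine polynomials of degree at most two is a product of two affine polynomials -/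
lemma two_factors (l : List (MvPolynomial (Fin n) (ZMod p))) (hl : ∀ f ∈ l, f.totalDegree ≤ 1)
    (hd : l.prod.totalDegree ≤ 2) :
    ∃ L M : MvPolynomial (Fin n) (ZMod p), L.totalDegree ≤ 1 ∧ M.totalDegree ≤ 1 ∧ l.prod = L * M := by
  induction l with
  | nil => exact ⟨1, 1, by simp, by simp, by simp⟩
  | cons f l ih =>
    rw [List.prod_cons] at hd ⊢
    by_cases hf : f = 0
    · exact ⟨0, 0, by simp, by simp, by simp [hf]⟩
    by_cases hp : l.prod = 0
    · exact ⟨0, 0, by simp, by simp, by simp [hp]⟩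
    have hmul := MvPolynomial.totalDegree_mul_of_isDomain hf hp
    have hf1 : f.totalDegree ≤ 1 := hl f (by simp)
    by_cases h0 : f.totalDegree = 0
    · obtain ⟨L, M, hL, hM, hLM⟩ := ih (fun g hg => hl g (by simp [hg])) (by omega)
      refine ⟨f * L, M, ?_, hM, by rw [hLM, mul_assoc]⟩
      have := MvPolynomial.totalDegree_mul f L
      omega
    · exact ⟨f, l.prod, hf1, by omega, rfl⟩

/-- second difference of an affine polynomial vanishes -/
lemma affine_add (L : MvPolynomial (Fin n) (ZMod p)) (hL : L.totalDegree ≤ 1) (x y : Fin n → ZMod p) :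
    eval (x + y) L + eval 0 L = eval x L + eval y L := by
  rw [MvPolynomial.as_sum L]
  simp only [map_sum, ← Finset.sum_add_distrib]
  apply Finset.sum_congr rfl
  intro d hd
  have h1 : (d.sum fun _ e => e) ≤ 1 := (MvPolynomial.le_totalDegree hd).trans hL
  rw [MvPolynomial.eval_monomial, MvPolynomial.eval_monomial, MvPolynomial.eval_monomial, MvPolynomial.eval_monomial]
  by_cases h0 : d = 0
  · subst h0; simp
  · have hex : ∃ i, d i ≠ 0 := by
      by_contra hall
      push Not at hall
      exact h0 (Finsupp.ext hall)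
    obtain ⟨i, hi⟩ := hex
    have hd1 : d = Finsupp.single i 1 := by
      have h2 : d i ≤ d.sum fun _ e => e := by
        rw [Finsupp.sum]
        exact Finset.single_le_sum (f := fun a => d a) (fun _ _ => Nat.zero_le _) (by rw [Finsupp.mem_support_iff]; exact hi)
      ext j
      by_cases hij : j = i
      · subst hij; rw [Finsupp.single_eq_same]; omega
      · rw [Finsupp.single_apply, if_neg (fun h => hij h.symm)]
        by_contra hj
        have h3 : d i + d j ≤ d.sum fun _ e => e := by
          rw [Finsupp.sum]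
          have : ({i, j} : Finset (Fin n)) ⊆ d.support := by
            intro k hk
            simp only [Finset.mem_insert, Finset.mem_singleton] at hk
            rw [Finsupp.mem_support_iff]
            rcases hk with rfl | rfl <;> assumption
          calc d i + d j = ∑ k ∈ ({i, j} : Finset (Fin n)), d k := by
                rw [Finset.sum_pair (fun h => hij h.symm)]
            _ ≤ _ := Finset.sum_le_sum_of_subset this
        omega
    rw [hd1]
    simp [mul_add]


open Matrix in
/-- linear algebra core -/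
lemma linalg (m : ℕ) (hodd : m % 2 = 1) (hp : p % 4 = 3) (a b : Fin m → Fin m × Fin 3 → ZMod p)
    (a0 b0 : Fin m → ZMod p) (T : Fin m × Fin 3 → Fin m × Fin 3 → ZMod p) (T0 : Fin m × Fin 3 → ZMod p)
    (hT : ∀ s t, T s t = ∑ j, (a j s * b j t + a j t * b j s))
    (hT0 : ∀ s, T0 s = ∑ j, (a0 j * b j s + a j s * b0 j))
    (hxy : ∀ i, T (i, 0) (i, 1) = 1) (hxz : ∀ i, T (i, 0) (i, 2) = -1) (hyz : ∀ i, T (i, 1) (i, 2) = 0)
    (hcr : ∀ i i', i ≠ i' → ∀ k k', T (i, k) (i', k') = 0)
    (h0x : ∀ i, 2 * T0 (i, 0) + T (i, 0) (i, 0) = 0)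
    (h0y : ∀ i, 2 * T0 (i, 1) + T (i, 1) (i, 1) = 0)
    (h0z : ∀ i, 2 * T0 (i, 2) + T (i, 2) (i, 2) = 2) : False := by
  have hsymm : ∀ s t, T s t = T t s := by
    intro s t
    rw [hT, hT]
    apply Finset.sum_congr rfl
    intro j _; ring
  let Xc : (Fin 2 → Fin 3) → Matrix (Fin 2 × Fin m) (Fin 2 × Fin m) (ZMod p) :=
    fun c => Matrix.of (fun r q => if q.1 = 0 then a q.2 (r.2, c r.1) else b q.2 (r.2, c r.1))
  let N : Matrix (Fin 2 × Fin m) (Fin 2 × Fin m) (ZMod p) := blockDiagonal (fun _ => !![0, 1; 1, 0])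
  have hN : ∀ r q, N r q = if r.2 = q.2 ∧ r.1 ≠ q.1 then 1 else 0 := by
    rintro ⟨k, i⟩ ⟨l, j⟩
    simp only [N, blockDiagonal_apply]
    fin_cases k <;> fin_cases l <;> simp
  have key : ∀ (c c' : Fin 2 → Fin 3) r q, (Xc c * N * (Xc c')ᵀ) r q = T (r.2, c r.1) (q.2, c' q.1) := by
    intro c c' r q
    rw [Matrix.mul_assoc, Matrix.mul_apply, hT, Fintype.sum_prod_type, Fin.sum_univ_two, ← Finset.sum_add_distrib]
    apply Finset.sum_congr rfl
    intro j _
    have e0 : (N * (Xc c')ᵀ) (0, j) q = b j (q.2, c' q.1) := by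
      rw [Matrix.mul_apply, Finset.sum_eq_single (1, j)]
      · simp [hN, Xc]
      · rintro ⟨l, j'⟩ _ hne
        rw [hN]
        by_cases hj : j = j'
        · subst hj
          fin_cases l
          · simp
          · exact absurd rfl hne
        · simp [hj]
      · intro h; exact absurd (Finset.mem_univ _) h
    have e1 : (N * (Xc c')ᵀ) (1, j) q = a j (q.2, c' q.1) := by
      rw [Matrix.mul_apply, Finset.sum_eq_single (0, j)]
      · simp [hN, Xc]
      · rintro ⟨l, j'⟩ _ hne
        rw [hN]
        by_cases hj : j = j'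
        · subst hj
          fin_cases l
          · exact absurd rfl hne
          · simp
        · simp [hj]
      · intro h; exact absurd (Finset.mem_univ _) h
    rw [e0, e1]
    simp [Xc]
    ring
  have hdetN : N.det = -1 := by
    simp only [N, det_blockDiagonal]
    have : (!![0, 1; 1, 0] : Matrix (Fin 2) (Fin 2) (ZMod p)).det = -1 := by simp [Matrix.det_fin_two]
    rw [Finset.prod_const, this, Finset.card_univ, Fintype.card_fin]
    exact Odd.neg_one_pow (Nat.odd_iff.mpr hodd)
  have hXY : Xc ![0, 1] * N * (Xc ![0, 2])ᵀ = blockDiagonal (fun i => !![T (i, 0) (i, 0), -1; 1, 0]) := by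
    ext ⟨k, i⟩ ⟨l, j⟩
    rw [key, blockDiagonal_apply]
    by_cases hij : i = j
    · subst hij
      fin_cases k <;> fin_cases l
      · simp
      · simpa using hxz i
      · simpa using (hsymm _ _).trans (hxy i)
      · simpa using hyz i
    · simp only [hij, if_false]
      exact hcr i j hij _ _
  have hXX : Xc ![0, 1] * N * (Xc ![0, 1])ᵀ =
      blockDiagonal (fun i => !![T (i, 0) (i, 0), 1; 1, T (i, 1) (i, 1)]) := by
    ext ⟨k, i⟩ ⟨l, j⟩
    rw [key, blockDiagonal_apply]
    by_cases hij : i = j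
    · subst hij
      fin_cases k <;> fin_cases l
      · simp
      · simpa using hxy i
      · simpa using (hsymm _ _).trans (hxy i)
      · simp
    · simp only [hij, if_false]
      exact hcr i j hij _ _
  have hdX : (Xc ![0, 1]).det ≠ 0 := by
    intro h0
    have h1 := congrArg Matrix.det hXY
    rw [Matrix.det_mul, Matrix.det_mul, h0, det_blockDiagonal] at h1
    simp [Matrix.det_fin_two] at h1
  have hprod : ∏ i, (T (i, 0) (i, 0) * T (i, 1) (i, 1) - 1) = - ((Xc ![0, 1]).det) ^ 2 := by
    have h1 := congrArg Matrix.det hXX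
    rw [Matrix.det_mul, Matrix.det_mul, Matrix.det_transpose, hdetN, det_blockDiagonal] at h1
    simp only [Matrix.det_fin_two_of, one_mul] at h1
    rw [← h1]; ring
  have hD : ∀ i, T (i, 0) (i, 0) * T (i, 1) (i, 1) - 1 ≠ 0 := by
    intro i h0
    have : ∏ i, (T (i, 0) (i, 0) * T (i, 1) (i, 1) - 1) = 0 := Finset.prod_eq_zero (Finset.mem_univ i) h0
    rw [this] at hprod
    have h2 : ((Xc ![0, 1]).det) ^ 2 = 0 := by linear_combination hprod
    exact hdX (pow_eq_zero_iff (by norm_num) |>.mp h2)
  have hXN : IsUnit (Xc ![0, 1] * N) := by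
    rw [Matrix.isUnit_iff_isUnit_det, Matrix.det_mul, hdetN]
    exact (isUnit_iff_ne_zero.mpr hdX).mul (by simp)
  have hone : ∀ i, T (i, 0) (i, 0) * T (i, 1) (i, 1) - 1 = 1 := by
    intro i
    set α := T (i, 0) (i, 0) with hα
    set β := T (i, 1) (i, 1) with hβ
    set Δ := α * β - 1 with hΔ
    have hΔ0 : Δ ≠ 0 := hD i
    set u := -β / Δ with hu
    set v := 1 / Δ with hv
    have hu' : u * Δ = -β := by rw [hu]; field_simp
    have hv' : v * Δ = 1 := by rw [hv]; field_simp
    have e1 : u * α + v = -1 := by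
      apply mul_right_cancel₀ hΔ0
      have : (u * α + v) * Δ = (u * Δ) * α + v * Δ := by ring
      rw [this, hu', hv', hΔ]; ring
    have e2 : u + v * β = 0 := by
      apply mul_right_cancel₀ hΔ0
      have : (u + v * β) * Δ = (u * Δ) + (v * Δ) * β := by ring
      rw [this, hu', hv']; ring
    -- the vector w
    let w : Fin 2 × Fin m → ZMod p := fun q => if q.1 = 0 then a q.2 (i, 2) - u * a q.2 (i, 0) - v * a q.2 (i, 1)
      else b q.2 (i, 2) - u * b q.2 (i, 0) - v * b q.2 (i, 1)
    have hw0 : (Xc ![0, 1] * N) *ᵥ w = 0 := by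
      ext ⟨k, i'⟩
      have hc : ((Xc ![0, 1] * N) *ᵥ w) (k, i') = T (i', ![0, 1] k) (i, 2) - u * T (i', ![0, 1] k) (i, 0)
          - v * T (i', ![0, 1] k) (i, 1) := by
        rw [← Matrix.mulVec_mulVec]
        have hNw0 : ∀ j, (N *ᵥ w) (0, j) = w (1, j) := by
          intro j
          rw [Matrix.mulVec, dotProduct, Finset.sum_eq_single (1, j)]
          · simp [hN]
          · rintro ⟨l, j'⟩ _ hne
            rw [hN]
            by_cases hj : j = j'
            · subst hj
              fin_cases l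
              · simp
              · exact absurd rfl hne
            · simp [hj]
          · intro h; exact absurd (Finset.mem_univ _) h
        have hNw1 : ∀ j, (N *ᵥ w) (1, j) = w (0, j) := by
          intro j
          rw [Matrix.mulVec, dotProduct, Finset.sum_eq_single (0, j)]
          · simp [hN]
          · rintro ⟨l, j'⟩ _ hne
            rw [hN]
            by_cases hj : j = j'
            · subst hj
              fin_cases l
              · exact absurd rfl hne
              · simp
            · simp [hj]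
          · intro h; exact absurd (Finset.mem_univ _) h
        rw [Matrix.mulVec, dotProduct, Fintype.sum_prod_type, Fin.sum_univ_two, hT, hT, hT]
        simp only [hNw0, hNw1, Finset.mul_sum, ← Finset.sum_add_distrib, ← Finset.sum_sub_distrib]
        apply Finset.sum_congr rfl
        intro j _
        simp [Xc, w]
        ring
      rw [hc, Pi.zero_apply]
      by_cases hii : i' = i
      · subst hii
        fin_cases k
        · simp only [Fin.zero_eta, Matrix.cons_val_zero]
          rw [hxz, hxy, ← hα]; linear_combination -e1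
        · simp only [Fin.mk_one, Matrix.cons_val_one, Matrix.cons_val_fin_one]
          rw [hyz, hsymm (i', 1) (i', 0), hxy, ← hβ]; linear_combination -e2
      · rw [hcr i' i hii, hcr i' i hii, hcr i' i hii]; ring
    have hw : w = 0 := by
      obtain ⟨U, hU⟩ := hXN
      have := congrArg (fun z => (↑U⁻¹ : Matrix (Fin 2 × Fin m) (Fin 2 × Fin m) (ZMod p)) *ᵥ z) hw0
      simp only [← hU, Matrix.mulVec_mulVec, Units.inv_mul, Matrix.one_mulVec, Matrix.mulVec_zero] at this
      exact this
    have ha : ∀ j, a j (i, 2) = u * a j (i, 0) + v * a j (i, 1) := by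
      intro j
      have := congrFun hw (0, j)
      simp only [w, if_true, Pi.zero_apply] at this
      linear_combination this
    have hb : ∀ j, b j (i, 2) = u * b j (i, 0) + v * b j (i, 1) := by
      intro j
      have := congrFun hw (1, j)
      simp only [w, Pi.zero_apply] at this
      simp at this
      linear_combination this
    have hTz : T (i, 2) (i, 2) = u * T (i, 0) (i, 2) + v * T (i, 1) (i, 2) := by
      rw [hT, hT (i, 0), hT (i, 1), Finset.mul_sum, Finset.mul_sum, ← Finset.sum_add_distrib]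
      apply Finset.sum_congr rfl
      intro j _
      have h1 := ha j
      have h2 := hb j
      linear_combination (b j (i, 2)) * h1 + (a j (i, 2)) * h2
    have hT0z : T0 (i, 2) = u * T0 (i, 0) + v * T0 (i, 1) := by
      rw [hT0, hT0 (i, 0), hT0 (i, 1), Finset.mul_sum, Finset.mul_sum, ← Finset.sum_add_distrib]
      apply Finset.sum_congr rfl
      intro j _
      have h1 := ha j
      have h2 := hb j
      linear_combination (b0 j) * h1 + (a0 j) * h2
    rw [hxz, hyz] at hTz
    have f1 := h0x i
    have f2 := h0y i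
    have f3 := h0z i
    -- 2 + u = - u α - v β
    have f4 : 2 + u = - u * α - v * β := by
      linear_combination -f3 + hTz + 2 * hT0z + u * f1 + v * f2
    have f5 : (2 + u + u * α + v * β) * Δ = 0 := by rw [f4]; ring
    have f6 : 2 * Δ - β - β * α + β = 0 := by
      have : (2 + u + u * α + v * β) * Δ = 2 * Δ + u * Δ + (u * Δ) * α + (v * Δ) * β := by ring
      rw [this, hu', hv'] at f5
      linear_combination f5
    rw [hΔ] at f6 ⊢
    linear_combination f6
  have hfin : (-1 : ZMod p) = ((Xc ![0, 1]).det) ^ 2 := by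
    rw [Finset.prod_congr rfl (fun i _ => hone i)] at hprod
    simp only [Finset.prod_const_one] at hprod
    linear_combination -hprod
  have hsq : IsSquare (-1 : ZMod p) := ⟨(Xc ![0, 1]).det, by rw [hfin]; ring⟩
  exact (ZMod.exists_sq_eq_neg_one_iff.mp hsq) hp


end General

section Construction

variable {p : ℕ} [Fact p.Prime]

/-- sum of `m` disjoint multiplexers `z + x (y - z)` -/
noncomputable def muxSum (p m : ℕ) : MvPolynomial (Fin (m * 3)) (ZMod p) :=
  ∑ i : Fin m, (X (finProdFinEquiv (i, (2 : Fin 3))) + X (finProdFinEquiv (i, (0 : Fin 3))) *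
    (X (finProdFinEquiv (i, (1 : Fin 3))) - X (finProdFinEquiv (i, (2 : Fin 3)))))

lemma eval_muxSum (m : ℕ) (x : Fin (m * 3) → ZMod p) : eval x (muxSum p m) =
    ∑ i : Fin m, (x (finProdFinEquiv (i, (2 : Fin 3))) + x (finProdFinEquiv (i, (0 : Fin 3))) *
    (x (finProdFinEquiv (i, (1 : Fin 3))) - x (finProdFinEquiv (i, (2 : Fin 3))))) := by
  simp [muxSum]

/-- unit vectors -/
def ev {m : ℕ} (s : Fin m × Fin 3) : Fin (m * 3) → ZMod p := fun q => if q = finProdFinEquiv s then 1 else 0

lemma ev_apply {m : ℕ} (s t : Fin m × Fin 3) : (ev s : Fin (m * 3) → ZMod p) (finProdFinEquiv t) = if t = s then 1 else 0 := by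
  simp [ev]

lemma eval_zero (m : ℕ) : eval 0 (muxSum p m) = 0 := by
  rw [eval_muxSum]; simp

lemma eval_ev (m : ℕ) (s : Fin m × Fin 3) : eval (ev s) (muxSum p m) = if s.2 = 2 then 1 else 0 := by
  rw [eval_muxSum]
  simp only [ev_apply]
  obtain ⟨i, k⟩ := s
  rw [Finset.sum_eq_single i]
  · fin_cases k <;> simp
  · intro j _ hj
    simp [hj]
  · intro h; exact absurd (Finset.mem_univ _) h

lemma eval_add (m : ℕ) (x y : Fin (m * 3) → ZMod p) : eval (x + y) (muxSum p m) = eval x (muxSum p m) +
    eval y (muxSum p m) + ∑ i : Fin m, (x (finProdFinEquiv (i, (0 : Fin 3))) *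
    (y (finProdFinEquiv (i, (1 : Fin 3))) - y (finProdFinEquiv (i, (2 : Fin 3)))) +
    y (finProdFinEquiv (i, (0 : Fin 3))) *
    (x (finProdFinEquiv (i, (1 : Fin 3))) - x (finProdFinEquiv (i, (2 : Fin 3))))) := by
  rw [eval_muxSum, eval_muxSum, eval_muxSum, ← Finset.sum_add_distrib, ← Finset.sum_add_distrib]
  apply Finset.sum_congr rfl
  intro i _
  simp only [Pi.add_apply]
  ring

lemma cross_same (m : ℕ) (i : Fin m) (k l : Fin 3) :
    ∑ i' : Fin m, ((ev (i, k) : Fin (m * 3) → ZMod p) (finProdFinEquiv (i', (0 : Fin 3))) *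
    ((ev (i, l) : Fin (m * 3) → ZMod p) (finProdFinEquiv (i', (1 : Fin 3))) -
     (ev (i, l) : Fin (m * 3) → ZMod p) (finProdFinEquiv (i', (2 : Fin 3)))) +
    (ev (i, l) : Fin (m * 3) → ZMod p) (finProdFinEquiv (i', (0 : Fin 3))) *
    ((ev (i, k) : Fin (m * 3) → ZMod p) (finProdFinEquiv (i', (1 : Fin 3))) -
     (ev (i, k) : Fin (m * 3) → ZMod p) (finProdFinEquiv (i', (2 : Fin 3))))) =
    (if k = 0 then 1 else 0) * ((if l = 1 then 1 else 0) - (if l = 2 then 1 else 0)) +
    (if l = 0 then 1 else 0) * ((if k = 1 then 1 else 0) - (if k = 2 then 1 else 0)) := by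
  simp only [ev_apply]
  rw [Finset.sum_eq_single i]
  · fin_cases k <;> fin_cases l <;> simp
  · intro j _ hj
    simp [hj]
  · intro h; exact absurd (Finset.mem_univ _) h

lemma cross_diff (m : ℕ) (i j : Fin m) (hij : i ≠ j) (k l : Fin 3) :
    ∑ i' : Fin m, ((ev (i, k) : Fin (m * 3) → ZMod p) (finProdFinEquiv (i', (0 : Fin 3))) *
    ((ev (j, l) : Fin (m * 3) → ZMod p) (finProdFinEquiv (i', (1 : Fin 3))) -
     (ev (j, l) : Fin (m * 3) → ZMod p) (finProdFinEquiv (i', (2 : Fin 3)))) +
    (ev (j, l) : Fin (m * 3) → ZMod p) (finProdFinEquiv (i', (0 : Fin 3))) *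
    ((ev (i, k) : Fin (m * 3) → ZMod p) (finProdFinEquiv (i', (1 : Fin 3))) -
     (ev (i, k) : Fin (m * 3) → ZMod p) (finProdFinEquiv (i', (2 : Fin 3))))) = 0 := by
  simp only [ev_apply]
  apply Finset.sum_eq_zero
  intro i' _
  by_cases h1 : i' = i
  · subst h1; simp [hij]
  · simp [h1]

/-- the core: no representation with `m` products, `m` odd, on the cube -/
lemma no_rep (m : ℕ) (hodd : m % 2 = 1) (hp : p % 4 = 3) (c : ZMod p)
    (L M : Fin m → MvPolynomial (Fin (m * 3)) (ZMod p)) (hL : ∀ j, (L j).totalDegree ≤ 1)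
    (hM : ∀ j, (M j).totalDegree ≤ 1)
    (h : ∀ x : Fin (m * 3) → ZMod p, (∀ i, x i = 0 ∨ x i = 1) →
      eval x (muxSum p m) - c = ∑ j, eval x (L j) * eval x (M j)) : False := by
  have h0 := h 0 (fun i => Or.inl rfl)
  rw [eval_zero] at h0
  have h1 : ∀ s : Fin m × Fin 3, (if s.2 = 2 then (1 : ZMod p) else 0) - c =
      ∑ j, eval (ev s) (L j) * eval (ev s) (M j) := by
    intro s
    rw [← eval_ev]
    apply h
    intro i
    unfold ev
    split_ifs <;> simp
  have h2 : ∀ s t : Fin m × Fin 3, s ≠ t → eval (ev s + ev t) (muxSum p m) - c =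
      ∑ j, (eval (ev s) (L j) + eval (ev t) (L j) - eval 0 (L j)) *
        (eval (ev s) (M j) + eval (ev t) (M j) - eval 0 (M j)) := by
    intro s t hst
    rw [h (ev s + ev t)]
    · apply Finset.sum_congr rfl
      intro j _
      rw [← affine_add (L j) (hL j), ← affine_add (M j) (hM j)]
      ring
    · intro i
      simp only [Pi.add_apply, ev]
      by_cases hi : i = finProdFinEquiv s
      · have : i ≠ finProdFinEquiv t := by
          rintro rfl
          exact hst (finProdFinEquiv.injective hi).symm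
        rw [if_pos hi, if_neg this]; simp
      · rw [if_neg hi]
        split_ifs <;> simp
  have hbil : ∀ s t : Fin m × Fin 3, s ≠ t →
      ∑ j, ((eval (ev s) (L j) - eval 0 (L j)) * (eval (ev t) (M j) - eval 0 (M j)) +
        (eval (ev t) (L j) - eval 0 (L j)) * (eval (ev s) (M j) - eval 0 (M j))) =
      eval (ev s + ev t) (muxSum p m) - eval (ev s) (muxSum p m) - eval (ev t) (muxSum p m) := by
    intro s t hst
    have e1 := h2 s t hst
    have e2 := h1 s
    have e3 := h1 t
    rw [← eval_ev] at e2 e3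
    have e4 : eval (ev s + ev t) (muxSum p m) - eval (ev s) (muxSum p m) - eval (ev t) (muxSum p m) =
      (eval (ev s + ev t) (muxSum p m) - c) - (eval (ev s) (muxSum p m) - c) - (eval (ev t) (muxSum p m) - c)
        + (0 - c) := by ring
    rw [e4, e1, e2, e3, h0, ← Finset.sum_sub_distrib, ← Finset.sum_sub_distrib, ← Finset.sum_add_distrib]
    apply Finset.sum_congr rfl
    intro j _
    ring
  have hlin : ∀ s : Fin m × Fin 3,
      2 * (∑ j, (eval 0 (L j) * (eval (ev s) (M j) - eval 0 (M j)) +
        (eval (ev s) (L j) - eval 0 (L j)) * eval 0 (M j))) +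
      (∑ j, ((eval (ev s) (L j) - eval 0 (L j)) * (eval (ev s) (M j) - eval 0 (M j)) +
        (eval (ev s) (L j) - eval 0 (L j)) * (eval (ev s) (M j) - eval 0 (M j)))) =
      2 * (if s.2 = 2 then (1 : ZMod p) else 0) := by
    intro s
    have e2 := h1 s
    have e4 : 2 * (if s.2 = 2 then (1 : ZMod p) else 0) =
      2 * (((if s.2 = 2 then (1 : ZMod p) else 0) - c) - (0 - c)) := by ring
    rw [e4, e2, h0, ← Finset.sum_sub_distrib, Finset.mul_sum, Finset.mul_sum, ← Finset.sum_add_distrib]
    apply Finset.sum_congr rfl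
    intro j _
    ring
  apply linalg m hodd hp (fun j s => eval (ev s) (L j) - eval 0 (L j)) (fun j s => eval (ev s) (M j) - eval 0 (M j))
    (fun j => eval 0 (L j)) (fun j => eval 0 (M j)) _ _ (fun s t => rfl) (fun s => rfl)
  · intro i
    rw [hbil _ _ (by simp), eval_add, cross_same]
    simp only [Fin.isValue, if_true, one_ne_zero, zero_ne_one, if_false, Fin.reduceEq]
    ring
  · intro i
    rw [hbil _ _ (by simp), eval_add, cross_same]
    simp only [Fin.isValue, if_true, one_ne_zero, zero_ne_one, if_false, Fin.reduceEq]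
    ring
  · intro i
    rw [hbil _ _ (by simp), eval_add, cross_same]
    simp
  · intro i i' hii k k'
    rw [hbil _ _ (by simp [hii]), eval_add, cross_diff _ _ _ hii]
    ring
  · intro i
    rw [hlin (i, 0)]; simp
  · intro i
    rw [hlin (i, 1)]; simp
  · intro i
    rw [hlin (i, 2)]; simp

lemma degree_muxSum (m : ℕ) (hm : 0 < m) : (muxSum p m).totalDegree = 2 := by
  apply le_antisymm
  · unfold muxSum
    apply MvPolynomial.totalDegree_finsetSum_le
    intro i _
    refine (MvPolynomial.totalDegree_add _ _).trans (max_le ?_ ?_)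
    · rw [MvPolynomial.totalDegree_X]; norm_num
    · refine (MvPolynomial.totalDegree_mul _ _).trans ?_
      have : (X (finProdFinEquiv (i, (1 : Fin 3))) - X (finProdFinEquiv (i, (2 : Fin 3))) :
        MvPolynomial (Fin (m * 3)) (ZMod p)).totalDegree ≤ 1 := by
        refine (MvPolynomial.totalDegree_sub _ _).trans ?_
        simp [MvPolynomial.totalDegree_X]
      rw [MvPolynomial.totalDegree_X]
      omega
  · by_contra hlt
    have h1 : (muxSum p m).totalDegree ≤ 1 := by omega
    have h2 := affine_add (muxSum p m) h1 (ev (⟨0, hm⟩, 0)) (ev (⟨0, hm⟩, 1))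
    rw [eval_add, cross_same, eval_zero, eval_ev, eval_ev] at h2
    simp at h2

end Construction

/-- For every prime `p ≡ 3 (mod 4)` the bound `p - 2` fails for `S = {0, 1}`. -/
theorem result : ∀ p : ℕ, p.Prime → p % 4 = 3 →
    ∃ (n : ℕ) (P : MvPolynomial (Fin n) (ZMod p)), P.totalDegree = 2 ∧
      (fun x : Fin n → ZMod p => eval x P) '' {x | ∀ i, x i ∈ ({0, 1} : Set (ZMod p))} ≠ Set.univ ∧
      ((p - 1 : ℕ) : ℕ∞) ≤ rkSbar 1 ({0, 1} : Set (ZMod p)) P := by
  intro p hprime hp4
  have : Fact p.Prime := ⟨hprime⟩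
  have hp3 : 3 ≤ p := by omega
  refine ⟨(p - 2) * 3, muxSum p (p - 2), degree_muxSum _ (by omega), ?_, ?_⟩
  · intro huniv
    have hmem : (-1 : ZMod p) ∈ (fun x : Fin ((p - 2) * 3) → ZMod p => eval x (muxSum p (p - 2))) ''
        {x | ∀ i, x i ∈ ({0, 1} : Set (ZMod p))} := by rw [huniv]; trivial
    obtain ⟨x, hx, hval⟩ := hmem
    simp only at hval
    rw [eval_muxSum] at hval
    have hblock : ∀ i : Fin (p - 2), ∃ g : ℕ, g ≤ 1 ∧
        x (finProdFinEquiv (i, (2 : Fin 3))) + x (finProdFinEquiv (i, (0 : Fin 3))) *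
        (x (finProdFinEquiv (i, (1 : Fin 3))) - x (finProdFinEquiv (i, (2 : Fin 3)))) = (g : ZMod p) := by
      intro i
      have hx0 := hx (finProdFinEquiv (i, (0 : Fin 3)))
      have hx1 := hx (finProdFinEquiv (i, (1 : Fin 3)))
      have hx2 := hx (finProdFinEquiv (i, (2 : Fin 3)))
      simp only [Set.mem_insert_iff, Set.mem_singleton_iff] at hx0 hx1 hx2
      rcases hx0 with h0 | h0 <;> rcases hx1 with h1 | h1 <;> rcases hx2 with h2 | h2 <;> rw [h0, h1, h2]
      · exact ⟨0, by norm_num, by simp⟩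
      · exact ⟨1, by norm_num, by simp⟩
      · exact ⟨0, by norm_num, by simp⟩
      · exact ⟨1, by norm_num, by simp⟩
      · exact ⟨0, by norm_num, by simp⟩
      · exact ⟨0, by norm_num, by simp⟩
      · exact ⟨1, by norm_num, by simp⟩
      · exact ⟨1, by norm_num, by simp⟩
    choose g hg1 hg2 using hblock
    rw [Finset.sum_congr rfl (fun i _ => hg2 i), ← Nat.cast_sum] at hval
    have hle : ∑ i, g i ≤ p - 2 := by
      calc ∑ i, g i ≤ ∑ i : Fin (p - 2), 1 := Finset.sum_le_sum (fun i _ => hg1 i)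
        _ = p - 2 := by simp
    have hz : ((∑ i, g i + 1 : ℕ) : ZMod p) = 0 := by
      rw [Nat.cast_add, hval]; simp
    rw [ZMod.natCast_eq_zero_iff] at hz
    have := Nat.le_of_dvd (by omega) hz
    omega
  · unfold rkSbar rkS rk
    refine le_iInf fun c => le_iInf fun P₀ => le_iInf fun hP₀ => le_iInf fun k => le_iInf fun hk => ?_
    obtain ⟨hdeg, hvan⟩ := hP₀
    obtain ⟨Q, hQ, hsum⟩ := hk
    rw [Nat.cast_le]
    by_contra hlt
    have hk2 : k ≤ p - 2 := by omega
    have hdm := degree_muxSum (p := p) (p - 2) (by omega)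
    have hd1 : (muxSum p (p - 2) - C c).totalDegree ≤ 2 := by
      refine (MvPolynomial.totalDegree_sub _ _).trans ?_
      rw [hdm]; simp
    have hd2 : (muxSum p (p - 2) - C c - P₀).totalDegree ≤ 2 := by
      refine (MvPolynomial.totalDegree_sub _ _).trans ?_
      simp only [max_le_iff]
      exact ⟨hd1, hdeg.trans hd1⟩
    have hfac : ∀ j : Fin k, ∃ L M : MvPolynomial (Fin ((p - 2) * 3)) (ZMod p), L.totalDegree ≤ 1 ∧
        M.totalDegree ≤ 1 ∧ Q j = L * M := by
      intro j
      obtain ⟨⟨l, hl, hprod⟩, hQd⟩ := hQ j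
      obtain ⟨L, M, h1, h2, h3⟩ := two_factors l hl (by rw [hprod]; exact hQd.trans hd2)
      exact ⟨L, M, h1, h2, by rw [← hprod, h3]⟩
    choose L M hL hM hLM using hfac
    apply no_rep (p := p) (p - 2) (by omega) hp4 c (fun j => if h : j.val < k then L ⟨j.val, h⟩ else 0)
      (fun j => if h : j.val < k then M ⟨j.val, h⟩ else 0)
    · intro j
      split_ifs
      · exact hL _
      · simp
    · intro j
      split_ifs
      · exact hM _
      · simp
    · intro x hx
      have hv := hvan x (fun i => by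
        rcases hx i with h | h
        · rw [h]; simp
        · rw [h]; simp)
      have h1 := congrArg (eval x) hsum
      simp only [map_sub, map_sum, eval_C, hv, sub_zero] at h1
      rw [h1]
      have h2 : ∑ i : Fin k, eval x (Q i) = ∑ i : Fin k, eval x (L i) * eval x (M i) := by
        apply Finset.sum_congr rfl
        intro i _
        rw [hLM i, map_mul]
      rw [h2]
      have h3 : ∀ j : Fin (p - 2), eval x (if h : j.val < k then L ⟨j.val, h⟩ else 0) *
          eval x (if h : j.val < k then M ⟨j.val, h⟩ else 0) =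
          if h : j.val < k then eval x (L ⟨j.val, h⟩) * eval x (M ⟨j.val, h⟩) else 0 := by
        intro j
        split_ifs <;> simp
      rw [Finset.sum_congr rfl (fun j _ => h3 j)]
      rw [Fin.sum_univ_eq_sum_range (fun j => if h : j < k then eval x (L ⟨j, h⟩) * eval x (M ⟨j, h⟩) else 0) (p - 2)]
      rw [← Finset.sum_subset (Finset.range_mono hk2)]
      · rw [← Fin.sum_univ_eq_sum_range (fun j => if h : j < k then eval x (L ⟨j, h⟩) * eval x (M ⟨j, h⟩) else 0) k]
        apply Finset.sum_congr rfl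
        intro i _
        simp
      · intro j _ hj
        rw [Finset.mem_range] at hj
        simp [hj]

end Pool.Agent.Results.MP_d05de0_co.Multiplexer
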